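import Pool.Agent.Helper63.Trind.Main

/-!
# MP_0764dd_gt: a compact space which is a union of countably many zero-dimensional subspaces and
does not have small transfinite dimension

The definitions `TrindLE` and `HasTrind` are in `Pool/Agent/Helper63/Trind/Defs.lean`.
-/

set_option autoImplicit false

namespace Pool.Agent.Results.MP_0764dd_gt.ZeroDimensionalUnion

open Pool.Agent.Helper63.Trind

universe u v

/-- **Negative answer to Q1, in a strong form**: there is a compact Hausdorff space `X` which is
the union of countably many subspaces `A n` with `trind (A n) ≤ 0`, and `X` does not have small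
transfinite dimension (for all universes of spaces and of ordinals). -/
theorem result : ∃ (X : Type u) (_ : TopologicalSpace X), CompactSpace X ∧ T2Space X ∧
    ∃ A : ℕ → Set X, (⋃ n, A n) = Set.univ ∧ (∀ n, TrindLE (0 : Ordinal.{v}) (A n)) ∧
      ¬ HasTrind.{u, v} X :=
  main

end Pool.Agent.Results.MP_0764dd_gt.ZeroDimensionalUnion
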